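import Pool.Agent.T2h19.AP.Stm2

/-!
# The basic cell (task EVA of helper19)
-/

set_option autoImplicit false

open MvPolynomial

namespace Pool.Agent.T2h32.AP

open Pool.Agent.T2h19.AP

lemma ev_mA (u : Fin 6 → ℂ) (i j : Fin 3) :
    eval u (tl (mA fun k => (X k : MvPolynomial (Fin 6) ℂ)) i j) = tl (mA u) i j := by
  fin_cases i <;> fin_cases j <;>
    simp [tl, mA, Matrix.trace_fin_three, Matrix.scalar_apply, algebraMap_eq]

lemma ev_mB (u : Fin 6 → ℂ) (i j : Fin 3) :
    eval u (tl (mB fun k => (X k : MvPolynomial (Fin 6) ℂ)) i j) = tl (mB u) i j := by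
  fin_cases i <;> fin_cases j <;>
    simp [tl, mB, Matrix.trace_fin_three, Matrix.scalar_apply, algebraMap_eq]

lemma ev_eq (u : Fin 6 → ℂ) : ev φ0 u = wedge (tl (mA u)) (tl (mB u)) := by
  funext p
  change eval u (wedge (tl (mA fun i => X i)) (tl (mB fun i => X i)) p) = _
  simp only [wedge, map_sub, map_mul, ev_mA, ev_mB]

lemma comm_AB (u : Fin 6 → ℂ) : mA u * mB u = mB u * mA u := by
  ext i j
  fin_cases i <;> fin_cases j <;>
    simp [mA, mB, Matrix.mul_apply, Fin.sum_univ_three] <;> ring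

lemma trace_tl (x : M3) : (tl x).trace = 0 := by
  simp only [tl, Matrix.trace_fin_three, Matrix.scalar_apply, Matrix.sub_apply,
    Matrix.diagonal_apply_eq, Algebra.algebraMap_self, RingHom.id_apply]
  ring

lemma tl_comm {x y : M3} (h : x * y = y * x) : tl x * tl y = tl y * tl x := by
  have h1 : ∀ (a : ℂ) (z : M3), Matrix.scalar (Fin 3) a * z = z * Matrix.scalar (Fin 3) a :=
    fun a z => (Matrix.scalar_commute a (fun r => mul_comm _ _) z).eq
  have e1 := h1 (algebraMap ℂ ℂ (1 / 3) * x.trace) y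
  have e2 := h1 (algebraMap ℂ ℂ (1 / 3) * y.trace) x
  have e3 := h1 (algebraMap ℂ ℂ (1 / 3) * x.trace)
    (Matrix.scalar (Fin 3) (algebraMap ℂ ℂ (1 / 3) * y.trace))
  unfold tl
  rw [sub_mul, mul_sub, mul_sub, sub_mul, mul_sub, mul_sub, e1, e2, e3, h]
  abel

lemma tl_smul (t : ℂ) (x : M3) : tl (t • x) = t • tl x := by
  ext i j
  fin_cases i <;> fin_cases j <;>
    simp [tl, Matrix.trace_fin_three, Matrix.scalar_apply] <;> ring

lemma wedge_smul (t : ℂ) (x y : M3) : wedge (t • x) y = t • wedge x y := by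
  funext p
  simp only [wedge, Matrix.smul_apply, smul_eq_mul, Pi.smul_apply]
  ring

/-- **EVA.** -/
theorem eva_ : S_EVA := by
  refine ⟨ev_eq, fun u => ?_, fun u j => ?_, comm_AB, fun t u => ?_⟩
  · rw [ev_eq]
    simp [L0, co, wedge, tl, mA, mB, Matrix.scalar_apply]
  · rw [ev_eq]
    fin_cases j <;>
      simp [L0, co, wedge, tl, mA, mB, Matrix.scalar_apply, Matrix.trace_fin_three] <;> ring
  · refine ⟨t • tl (mA u), tl (mB u), ?_, trace_tl _, ?_, ?_⟩
    · rw [Matrix.trace_smul, trace_tl, smul_zero]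
    · rw [smul_mul_assoc, mul_smul_comm, tl_comm (comm_AB u)]
    · rw [ev_eq, wedge_smul]

end Pool.Agent.T2h32.AP
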