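import Pool.Agent.T2h19.AP.Stm2

/-!
# The normal form (task NRM of helper19)
-/

set_option autoImplicit false

open MvPolynomial

namespace Pool.Agent.T2h32.AP

open Pool.Agent.T2h19.AP

/-- The parameters. -/
def par (A B : M3) : Fin 6 → ℂ := ![A 1 1, A 2 1, A 1 2, A 2 2, B 1 2, B 2 2]

lemma normal {A B : M3} (h : A * B = B * A) (a0 : A 0 0 = 0) (a1 : A 1 0 = 1) (a2 : A 2 0 = 0)
    (b0 : B 0 0 = 0) (b1 : B 1 0 = 0) (b2 : B 2 0 = 1) :
    A = mA (par A B) ∧ B = mB (par A B) := by
  have e : ∀ i j, ∑ k, A i k * B k j = ∑ k, B i k * A k j := by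
    intro i j
    have := congrFun (congrFun h i) j
    rwa [Matrix.mul_apply, Matrix.mul_apply] at this
  have e00 := e 0 0
  have e10 := e 1 0
  have e20 := e 2 0
  have e11 := e 1 1
  have e21 := e 2 1
  have e12 := e 1 2
  simp only [Fin.sum_univ_three, a0, a1, a2, b0, b1, b2] at e00 e10 e20 e11 e21 e12
  have f0 : B 0 1 = A 0 2 := by linear_combination (-1) * e00
  have f1 : B 1 1 = A 1 2 := by linear_combination (-1) * e10
  have f2 : B 2 1 = A 2 2 := by linear_combination (-1) * e20
  rw [f0, f1, f2] at e11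
  rw [f0, f1, f2] at e21
  rw [f1] at e12
  constructor
  · ext i j
    fin_cases i <;> fin_cases j <;> simp [mA, par, a0, a1, a2]
    · linear_combination (-1) * e21
    · linear_combination e11
  · ext i j
    fin_cases i <;> fin_cases j <;> simp [mB, par, b0, b1, b2]
    · linear_combination f0 + e11
    · linear_combination e12
    · exact f1
    · exact f2

lemma tl_lin (a b c : ℂ) {x y : M3} (hx : x.trace = 0) (hy : y.trace = 0) :
    tl (a • x + b • y + c • (1 : M3)) = a • x + b • y := by
  have h : (a • x + b • y + c • (1 : M3)).trace = 3 * c := by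
    rw [Matrix.trace_add, Matrix.trace_add, Matrix.trace_smul, Matrix.trace_smul, hx, hy,
      Matrix.trace_smul, Matrix.trace_one]
    simp
    ring
  rw [tl, h]
  ext i j
  by_cases hij : i = j
  · subst hij
    simp [Matrix.scalar_apply]
  · simp [Matrix.scalar_apply, hij]

lemma wedge_lin (a b a' b' : ℂ) (x y : M3) :
    wedge (a • x + b • y) (a' • x + b' • y) = (a * b' - b * a') • wedge x y := by
  funext p
  simp only [wedge, Matrix.add_apply, Matrix.smul_apply, smul_eq_mul, Pi.smul_apply]
  ring

/-- **NRM.** -/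
theorem nrm_ (h1 : S_EVA) : S_NRM := by
  intro x y hx hy hxy hc
  set c := L0 0 (wedge x y) with hcd
  have hc' : c = x 1 0 * y 2 0 - y 1 0 * x 2 0 := rfl
  set α := y 2 0 / c with hα
  set β := -(x 2 0) / c with hβ
  set α' := -(y 1 0) / c with hα'
  set β' := x 1 0 / c with hβ'
  set A : M3 := α • x + β • y + (-(α * x 0 0 + β * y 0 0)) • (1 : M3) with hA
  set B : M3 := α' • x + β' • y + (-(α' * x 0 0 + β' * y 0 0)) • (1 : M3) with hB
  have hcomm : A * B = B * A := by
    rw [hA, hB]
    simp only [add_mul, mul_add, smul_mul_smul_comm, hxy, mul_one, one_mul]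
    simp only [mul_comm]
    abel
  obtain ⟨hA1, hB1⟩ := normal hcomm
    (by rw [hA]; simp)
    (by
      rw [hA]; simp only [Matrix.add_apply, Matrix.smul_apply, smul_eq_mul]
      rw [Matrix.one_apply_ne (by decide), hα, hβ]
      field_simp
      rw [hc']; ring)
    (by
      rw [hA]; simp only [Matrix.add_apply, Matrix.smul_apply, smul_eq_mul]
      rw [Matrix.one_apply_ne (by decide), hα, hβ]
      ring)
    (by rw [hB]; simp)
    (by
      rw [hB]; simp only [Matrix.add_apply, Matrix.smul_apply, smul_eq_mul]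
      rw [Matrix.one_apply_ne (by decide), hα', hβ']
      ring)
    (by
      rw [hB]; simp only [Matrix.add_apply, Matrix.smul_apply, smul_eq_mul]
      rw [Matrix.one_apply_ne (by decide), hα', hβ']
      field_simp
      rw [hc']; ring)
  have hev : ev φ0 (par A B) = c⁻¹ • wedge x y := by
    rw [h1.1, ← hA1, ← hB1, hA, hB, tl_lin _ _ _ hx hy, tl_lin _ _ _ hx hy, wedge_lin]
    congr 1
    rw [hα, hβ, hα', hβ']
    field_simp
    rw [hc']; ring
  have hu : (fun j => L0 j.succ (wedge x y) / c) = par A B := by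
    funext j
    rw [← h1.2.2.1 (par A B) j, hev, map_smul, smul_eq_mul, div_eq_inv_mul]
  rw [hu, hev, smul_smul, mul_inv_cancel₀ hc, one_smul]

end Pool.Agent.T2h32.AP
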