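import Pool.Agent.T2h19.AP.Stm2

/-!
# The functions `L_0 ∘ w` on the basic cell (task QAD of helper19)
-/

set_option autoImplicit false

open MvPolynomial

namespace Pool.Agent.T2h32.AP

open Pool.Agent.T2h19.AP

lemma mul_of_V (h : M3) (a b c : Fin 3 → ℂ) :
    (Matrix.of ![a, b, c] : M3) * h.transpose =
      Matrix.of ![h.mulVec a, h.mulVec b, h.mulVec c] := by
  ext i j
  fin_cases i <;>
    simp [Matrix.mul_apply, Matrix.mulVec, dotProduct, Fin.sum_univ_three, mul_comm]

lemma mul_of_F (h : M3) (a b c : Fin 3 → ℂ) :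
    (Matrix.of ![a, b, c] : M3) * h =
      Matrix.of ![Matrix.vecMul a h, Matrix.vecMul b h, Matrix.vecMul c h] := by
  ext i j
  fin_cases i <;>
    simp [Matrix.mul_apply, Matrix.vecMul, dotProduct, Fin.sum_univ_three]

lemma detV_conj {h h' : M3} (hh : h * h' = 1) (x y : M3) :
    (h * x * h') 1 0 * (h * y * h') 2 0 - (h * y * h') 1 0 * (h * x * h') 2 0 =
      h.det * detV x y (fun i => h' i 0) := by
  set v : Fin 3 → ℂ := fun i => h' i 0 with hv
  have h0 : h.mulVec v = fun i => (1 : M3) i 0 := by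
    funext i
    rw [← hh]
    rfl
  have hx : ∀ x : M3, h.mulVec (x.mulVec v) = fun i => (h * x * h') i 0 := by
    intro x
    rw [Matrix.mulVec_mulVec]
    rfl
  unfold detV
  rw [mul_comm h.det, ← Matrix.det_transpose h, ← Matrix.det_mul, mul_of_V, h0, hx, hx,
    Matrix.det_fin_three]
  simp
  ring

lemma detF_conj {h h' : M3} (hh : h * h' = 1) (x y : M3) :
    (h * x * h') 2 1 * (h * y * h') 2 0 - (h * y * h') 2 1 * (h * x * h') 2 0 =
      -(h'.det * detF x y (fun j => h 2 j)) := by
  set f : Fin 3 → ℂ := fun j => h 2 j with hf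
  have h0 : Matrix.vecMul f h' = fun j => (1 : M3) 2 j := by
    funext j
    rw [← hh]
    rfl
  have hx : ∀ x : M3, Matrix.vecMul (Matrix.vecMul f x) h' = fun j => (h * x * h') 2 j := by
    intro x
    rw [Matrix.vecMul_vecMul]
    funext j
    rw [mul_assoc]
    rfl
  unfold detF
  rw [mul_comm h'.det, ← Matrix.det_mul, mul_of_F, h0, hx, hx, Matrix.det_fin_three]
  simp
  ring

lemma detV_tl (x y : M3) (v : Fin 3 → ℂ) : detV (tl x) (tl y) v = detV x y v := by
  have h1 : ∀ x : M3, (tl x).mulVec v = x.mulVec v - (1 / 3 * x.trace) • v := by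
    intro x
    rw [tl, Matrix.sub_mulVec]
    congr 1
    funext i
    fin_cases i <;> simp [Matrix.mulVec, dotProduct, Fin.sum_univ_three, Matrix.scalar_apply]
  unfold detV
  rw [h1, h1, Matrix.det_fin_three, Matrix.det_fin_three]
  simp
  ring

lemma detF_tl (x y : M3) (f : Fin 3 → ℂ) : detF (tl x) (tl y) f = detF x y f := by
  have h1 : ∀ x : M3, Matrix.vecMul f (tl x) = Matrix.vecMul f x - (1 / 3 * x.trace) • f := by
    intro x
    rw [tl, Matrix.vecMul_sub]
    congr 1
    funext i
    fin_cases i <;>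
      simp [Matrix.vecMul, dotProduct, Fin.sum_univ_three, Matrix.scalar_apply, mul_comm]
  unfold detF
  rw [h1, h1, Matrix.det_fin_three, Matrix.det_fin_three]
  simp
  ring

/-- **QAD.** -/
theorem qad_ (h1 : S_EVA) (h2 : S_ADW) : S_QAD := by
  intro h h' hh hh' u
  rw [h1.1 u, h2.1]
  constructor
  · rw [← detV_tl, ← detV_conj hh]
    rfl
  · rw [← detF_tl, ← detF_conj hh]
    rfl

end Pool.Agent.T2h32.AP
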